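import Mathlib

/-! The integer iteration behind the half-plane discrepancy theorem for alternating paths: a
function on the sizes 0, .., 2n which doubles its profile at every step is bounded. -/

namespace Pool.Agent.HPD79

/-- Doubling: a large value at the size s at most n forces a large value near the size 2s. -/
def Dbl79 (n g : ℤ) (f : ℤ → ℤ) : Prop :=
  ∀ s : ℤ, 0 ≤ s → s ≤ n → g < f s →
    ∃ b D : ℤ, 0 ≤ b ∧ f s - g + b ≤ D ∧ D ≤ f (2 * s - 2 * b + D)

/-- The hypotheses of the iteration. -/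
structure Data79 (n g M : ℤ) (f : ℤ → ℤ) : Prop where
  g0 : 0 ≤ g
  lip : ∀ s : ℤ, |f (s + 1) - f s| ≤ 1
  lo : ∀ s : ℤ, s ≤ 0 → f s = 0
  hi : ∀ s : ℤ, 2 * n ≤ s → f s = 0
  mid : f n ≤ g
  dbl : Dbl79 n g f
  dbr : Dbl79 n g (fun s => f (2 * n - s))

/-- The complementary function has the same properties. -/
theorem Data79.compl {n g M : ℤ} {f : ℤ → ℤ} (h : Data79 n g M f) :
    Data79 n g M (fun s => f (2 * n - s)) := by
  refine ⟨h.g0, ?_, ?_, ?_, ?_, h.dbr, ?_⟩
  · intro s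
    have h1 := h.lip (2 * n - (s + 1))
    have e : 2 * n - (s + 1) + 1 = 2 * n - s := by ring
    rw [e] at h1
    rw [abs_sub_comm]
    exact h1
  · intro s hs
    exact h.hi _ (by omega)
  · intro s hs
    exact h.lo _ (by omega)
  · have e : 2 * n - n = n := by ring
    show f (2 * n - n) ≤ g
    rw [e]
    exact h.mid
  · intro s h0 hs hg
    simp only [sub_sub_cancel] at hg ⊢
    exact h.dbl s h0 hs hg

/-- The Lipschitz property over any distance. -/
theorem Data79.lipN {n g M : ℤ} {f : ℤ → ℤ} (h : Data79 n g M f) (s : ℤ) (k : ℕ) :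
    |f (s + k) - f s| ≤ k := by
  induction k with
  | zero => simp
  | succ k ih =>
    have h1 := h.lip (s + k)
    have e : s + ((k + 1 : ℕ) : ℤ) = s + k + 1 := by push_cast; ring
    rw [e]
    rw [abs_le] at h1 ih ⊢
    push_cast
    constructor <;> linarith [h1.1, h1.2, ih.1, ih.2]

theorem Data79.lower {n g M : ℤ} {f : ℤ → ℤ} (h : Data79 n g M f) (s t : ℤ) :
    f s - |t - s| ≤ f t := by
  rcases le_total s t with hst | hst
  · obtain ⟨k, hk⟩ := Int.eq_ofNat_of_zero_le (sub_nonneg.mpr hst)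
    have h1 := h.lipN s k
    have e : s + (k : ℤ) = t := by rw [← hk]; ring
    rw [e] at h1
    rw [hk, abs_of_nonneg (by positivity : (0 : ℤ) ≤ (k : ℤ))]
    linarith [(abs_le.mp h1).1]
  · obtain ⟨k, hk⟩ := Int.eq_ofNat_of_zero_le (sub_nonneg.mpr hst)
    have h1 := h.lipN t k
    have e : t + (k : ℤ) = s := by rw [← hk]; ring
    rw [e] at h1
    rw [abs_sub_comm, hk, abs_of_nonneg (by positivity : (0 : ℤ) ≤ (k : ℤ))]
    linarith [(abs_le.mp h1).2]

/-- Left profile of slope 1/k at t. -/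
def LP79 (f : ℤ → ℤ) (k c M t : ℤ) : Prop :=
  ∀ e : ℤ, 0 ≤ e → 2 * e ≤ k * M → k * (M - c) - e ≤ k * f (t - e)

/-- Right profile of slope 1/k at t. -/
def RP79 (f : ℤ → ℤ) (k c M t : ℤ) : Prop :=
  ∀ e : ℤ, 0 ≤ e → 2 * e ≤ k * M → k * (M - c) - e ≤ k * f (t + e)

theorem pos_of_LP79 {f : ℤ → ℤ} {k c M t g e : ℤ} (hk : 1 ≤ k) (h : LP79 f k c M t)
    (hM : 2 * (c + g) < M) (he : 0 ≤ e) (he2 : 2 * e ≤ k * M) : g < f (t - e) := by
  have h1 := h e he he2
  by_contra hcon
  push Not at hcon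
  have h2 : k * f (t - e) ≤ k * g := mul_le_mul_of_nonneg_left hcon (by omega)
  have h3 : k * (2 * (c + g)) < k * M := mul_lt_mul_of_pos_left hM (by omega)
  nlinarith

theorem pos_of_RP79 {f : ℤ → ℤ} {k c M t g e : ℤ} (hk : 1 ≤ k) (h : RP79 f k c M t)
    (hM : 2 * (c + g) < M) (he : 0 ≤ e) (he2 : 2 * e ≤ k * M) : g < f (t + e) := by
  have h1 := h e he he2
  by_contra hcon
  push Not at hcon
  have h2 : k * f (t + e) ≤ k * g := mul_le_mul_of_nonneg_left hcon (by omega)
  have h3 : k * (2 * (c + g)) < k * M := mul_lt_mul_of_pos_left hM (by omega)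
  nlinarith

/-- A value above g sits at a positive size. -/
theorem Data79.size_pos {n g M : ℤ} {f : ℤ → ℤ} (h : Data79 n g M f) {s : ℤ} (hs : g < f s) :
    0 < s := by
  by_contra hcon
  push Not at hcon
  have h1 := h.lo s hcon
  have := h.g0
  omega

/-- Widening of a left profile. -/
theorem widenL79 {n g M : ℤ} {f : ℤ → ℤ} (h : Data79 n g M f) {k c t : ℤ} (hk : 1 ≤ k)
    (ht : t ≤ n) (hL : LP79 f k c M t) (hM : 2 * (c + g) < M) :
    LP79 f (2 * k + 1) (c + g + 2) M (2 * t + M - (c + g)) := by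
  intro e' he' he2'
  have hk2 : 0 < 2 * k + 1 := by omega
  obtain ⟨q, hq⟩ : ∃ q : ℤ, q = k * e' / (2 * k + 1) := ⟨_, rfl⟩
  have hq1 : (2 * k + 1) * q ≤ k * e' := by rw [hq]; exact Int.mul_ediv_self_le hk2.ne'
  have hq2 : k * e' < (2 * k + 1) * q + (2 * k + 1) := by
    rw [hq]
    have := Int.lt_mul_ediv_self_add (x := k * e') hk2
    linarith
  have hq0 : 0 ≤ q := by rw [hq]; exact Int.ediv_nonneg (by positivity) hk2.le
  have hqM : 2 * q ≤ k * M := by
    have h1 : (2 * k + 1) * (2 * q) ≤ (2 * k + 1) * (k * M) := by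
      have h2 : k * (2 * e') ≤ k * ((2 * k + 1) * M) := mul_le_mul_of_nonneg_left he2' (by omega)
      nlinarith
    exact le_of_mul_le_mul_left h1 hk2
  have hF := hL q hq0 hqM
  have hFg := pos_of_LP79 hk hL hM hq0 hqM
  have hs0 := h.size_pos hFg
  obtain ⟨b, D, hb, hD, hDf⟩ := h.dbl (t - q) hs0.le (by omega) hFg
  obtain ⟨F, hFdef⟩ : ∃ F : ℤ, F = f (t - q) := ⟨_, rfl⟩
  rw [← hFdef] at hF hFg hD
  have hlow := h.lower (2 * (t - q) - 2 * b + D) (2 * t + M - (c + g) - e')
  rcases le_total (2 * (t - q) - 2 * b + D) (2 * t + M - (c + g) - e') with hST | hST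
  · rw [abs_of_nonneg (by linarith)] at hlow
    have h1 : 2 * F - g - M + c + e' - 2 * q ≤ f (2 * t + M - (c + g) - e') := by linarith
    have h2 : k * (2 * F - g - M + c + e' - 2 * q) ≤ k * f (2 * t + M - (c + g) - e') :=
      mul_le_mul_of_nonneg_left h1 (by omega)
    have h3 : k * ((2 * k + 1) * (M - (c + g)) - e') ≤
        k * ((2 * k + 1) * f (2 * t + M - (c + g) - e')) := by
      nlinarith
    have h4 := le_of_mul_le_mul_left h3 (by omega : 0 < k)
    nlinarith
  · rw [abs_of_nonpos (by linarith)] at hlow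
    have h1 : M - (c + g) - e' + 2 * q ≤ f (2 * t + M - (c + g) - e') := by linarith
    have h2 : (2 * k + 1) * (M - (c + g) - e' + 2 * q) ≤
        (2 * k + 1) * f (2 * t + M - (c + g) - e') := mul_le_mul_of_nonneg_left h1 hk2.le
    nlinarith

/-- Widening of a right profile. -/
theorem widenR79 {n g M : ℤ} {f : ℤ → ℤ} (h : Data79 n g M f) {k c t : ℤ} (hk : 1 ≤ k)
    (ht : t ≤ n) (hR : RP79 f k c M t) (hM : 2 * (c + g) < M) :
    RP79 f (2 * k - 1) (c + g + 2) M (2 * t + M - (c + g)) := by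
  intro e' he' he2'
  have hk2 : 0 < 2 * k - 1 := by omega
  obtain ⟨q, hq⟩ : ∃ q : ℤ, q = k * e' / (2 * k - 1) := ⟨_, rfl⟩
  have hq1 : (2 * k - 1) * q ≤ k * e' := by rw [hq]; exact Int.mul_ediv_self_le hk2.ne'
  have hq2 : k * e' < (2 * k - 1) * q + (2 * k - 1) := by
    rw [hq]
    have := Int.lt_mul_ediv_self_add (x := k * e') hk2
    linarith
  have hq0 : 0 ≤ q := by rw [hq]; exact Int.ediv_nonneg (by positivity) hk2.le
  have hqM : 2 * q ≤ k * M := by
    have h1 : (2 * k - 1) * (2 * q) ≤ (2 * k - 1) * (k * M) := by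
      have h2 : k * (2 * e') ≤ k * ((2 * k - 1) * M) := mul_le_mul_of_nonneg_left he2' (by omega)
      nlinarith
    exact le_of_mul_le_mul_left h1 hk2
  have hF := hR q hq0 hqM
  have hFg := pos_of_RP79 hk hR hM hq0 hqM
  have hs0 := h.size_pos hFg
  have hsn : t + q ≤ n := by
    by_contra hcon
    push Not at hcon
    have h1 := pos_of_RP79 (e := n - t) hk hR hM (by omega) (by omega)
    have e : t + (n - t) = n := by ring
    rw [e] at h1
    have := h.mid
    omega
  obtain ⟨b, D, hb, hD, hDf⟩ := h.dbl (t + q) hs0.le hsn hFg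
  obtain ⟨F, hFdef⟩ : ∃ F : ℤ, F = f (t + q) := ⟨_, rfl⟩
  rw [← hFdef] at hF hFg hD
  have hlow := h.lower (2 * (t + q) - 2 * b + D) (2 * t + M - (c + g) + e')
  rcases le_total (2 * (t + q) - 2 * b + D) (2 * t + M - (c + g) + e') with hST | hST
  · rw [abs_of_nonneg (by linarith)] at hlow
    have h1 : 2 * F - g - M + c - e' + 2 * q ≤ f (2 * t + M - (c + g) + e') := by linarith
    have h2 : k * (2 * F - g - M + c - e' + 2 * q) ≤ k * f (2 * t + M - (c + g) + e') :=
      mul_le_mul_of_nonneg_left h1 (by omega)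
    have h3 : k * ((2 * k - 1) * (M - (c + g + 2)) - e') ≤
        k * ((2 * k - 1) * f (2 * t + M - (c + g) + e')) := by
      have h5 : (k - 1) * (k * e') ≤ (k - 1) * ((2 * k - 1) * q + (2 * k - 1)) :=
        mul_le_mul_of_nonneg_left hq2.le (by omega)
      nlinarith
    have h4 := le_of_mul_le_mul_left h3 (by omega : 0 < k)
    nlinarith
  · rw [abs_of_nonpos (by linarith)] at hlow
    have h1 : M - (c + g) + e' - 2 * q ≤ f (2 * t + M - (c + g) + e') := by linarith
    have h2 : (2 * k - 1) * (M - (c + g) + e' - 2 * q) ≤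
        (2 * k - 1) * f (2 * t + M - (c + g) + e') := mul_le_mul_of_nonneg_left h1 hk2.le
    nlinarith

/-- A profile at a size above n is a profile of the complementary function. -/
theorem compl_LP79 {n : ℤ} {f : ℤ → ℤ} {k c M t : ℤ} (h : LP79 f k c M t) :
    RP79 (fun s => f (2 * n - s)) k c M (2 * n - t) := by
  intro e he he2
  have h1 := h e he he2
  have e1 : 2 * n - (2 * n - t + e) = t - e := by ring
  show k * (M - c) - e ≤ k * f (2 * n - (2 * n - t + e))
  rw [e1]
  exact h1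

theorem compl_RP79 {n : ℤ} {f : ℤ → ℤ} {k c M t : ℤ} (h : RP79 f k c M t) :
    LP79 (fun s => f (2 * n - s)) k c M (2 * n - t) := by
  intro e he he2
  have h1 := h e he he2
  have e1 : 2 * n - (2 * n - t - e) = t + e := by ring
  show k * (M - c) - e ≤ k * f (2 * n - (2 * n - t - e))
  rw [e1]
  exact h1

/-- The state after j steps. -/
def St79 (n g M : ℤ) (j : ℕ) : Prop :=
  ∃ f : ℤ → ℤ, Data79 n g M f ∧ ∃ k t : ℤ, t ≤ n ∧
    ((2 ^ j ≤ k ∧ LP79 f k (j * (g + 2)) M t) ∨ (2 ^ j + 1 ≤ k ∧ RP79 f k (j * (g + 2)) M t))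

theorem St79.step {n g M : ℤ} {j : ℕ} (h : St79 n g M j) (hM : 2 * (j * (g + 2) + g) < M) :
    St79 n g M (j + 1) := by
  obtain ⟨f, hf, k, t, ht, h1⟩ := h
  have hp : (1 : ℤ) ≤ 2 ^ j := one_le_pow₀ (by norm_num)
  have hc : (j : ℤ) * (g + 2) + g + 2 = ((j + 1 : ℕ) : ℤ) * (g + 2) := by push_cast; ring
  rcases h1 with ⟨hk, hL⟩ | ⟨hk, hR⟩
  · have hw := widenL79 hf (by omega) ht hL hM
    rw [hc] at hw
    by_cases ht' : 2 * t + M - (j * (g + 2) + g) ≤ n
    · exact ⟨f, hf, _, _, ht', Or.inl ⟨by rw [pow_succ]; omega, hw⟩⟩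
    · exact ⟨_, hf.compl, _, _, by omega, Or.inr ⟨by rw [pow_succ]; omega, compl_LP79 (n := n) hw⟩⟩
  · have hw := widenR79 hf (by omega) ht hR hM
    rw [hc] at hw
    by_cases ht' : 2 * t + M - (j * (g + 2) + g) ≤ n
    · exact ⟨f, hf, _, _, ht', Or.inr ⟨by rw [pow_succ]; omega, hw⟩⟩
    · exact ⟨_, hf.compl, _, _, by omega, Or.inl ⟨by rw [pow_succ]; omega, compl_RP79 (n := n) hw⟩⟩

/-- A long profile is impossible. -/
theorem St79.stop {n g M : ℤ} {j : ℕ} (h : St79 n g M j) (hM : 2 * (j * (g + 2) + g) < M) :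
    2 ^ j * M < 2 * n := by
  obtain ⟨f, hf, k, t, ht, h1⟩ := h
  have hp : (1 : ℤ) ≤ 2 ^ j := one_le_pow₀ (by norm_num)
  have hg := hf.g0
  have hM0 : 0 ≤ M := by
    have : (0 : ℤ) ≤ (j : ℤ) * (g + 2) := by positivity
    omega
  by_contra hcon
  push Not at hcon
  rcases h1 with ⟨hk, hL⟩ | ⟨hk, hR⟩
  · have hkM : 2 * n ≤ k * M := le_trans hcon (mul_le_mul_of_nonneg_right hk hM0)
    have hk1 : 1 ≤ k := by omega
    have h0 := pos_of_LP79 (e := 0) hk1 hL hM le_rfl (by positivity)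
    have ht0 := hf.size_pos h0
    have h2 := pos_of_LP79 (e := t) hk1 hL hM (by omega) (by omega)
    have := hf.size_pos h2
    omega
  · have hkM : 2 * n ≤ k * M :=
      le_trans hcon (mul_le_mul_of_nonneg_right (by omega : (2 : ℤ) ^ j ≤ k) hM0)
    have hk1 : 1 ≤ k := by omega
    have h0 := pos_of_RP79 (e := 0) hk1 hR hM le_rfl (by positivity)
    have ht0 := hf.size_pos h0
    have h2 := pos_of_RP79 (e := n - t) hk1 hR hM (by omega) (by omega)
    have e : t + (n - t) = n := by ring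
    rw [e] at h2
    have := hf.mid
    omega

/-- The iteration: a maximum M of a doubling function on the sizes 0, .., 2n is bounded. -/
theorem iter79 {n g M : ℤ} {f : ℤ → ℤ} (h : Data79 n g M f)
    (hT : ∃ t : ℤ, t ≤ 2 * n ∧ f t = M) (j : ℕ) (hj : 2 * n ≤ 2 ^ j * M) :
    M ≤ 2 * (j * (g + 2) + g) := by
  by_contra hcon
  push Not at hcon
  have hg := h.g0
  have start : St79 n g M 0 := by
    obtain ⟨t, ht, hfM⟩ := hT
    by_cases htn : t ≤ n
    · refine ⟨f, h, 1, t, htn, Or.inl ⟨by simp, ?_⟩⟩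
      intro e he he2
      have h1 := h.lower t (t - e)
      have e1 : t - e - t = -e := by ring
      rw [e1, abs_neg, abs_of_nonneg he] at h1
      push_cast
      linarith
    · refine ⟨_, h.compl, 1, 2 * n - t, by omega, Or.inl ⟨by simp, ?_⟩⟩
      intro e he he2
      have h1 := h.compl.lower (2 * n - t) (2 * n - t - e)
      have e1 : 2 * n - t - e - (2 * n - t) = -e := by ring
      have e2 : 2 * n - (2 * n - t) = t := by ring
      simp only [e1, abs_neg, abs_of_nonneg he, e2] at h1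
      push_cast
      linarith
  have all : ∀ i : ℕ, i ≤ j → St79 n g M i := by
    intro i
    induction i with
    | zero => intro _; exact start
    | succ i ih =>
      intro hi
      refine (ih (by omega)).step ?_
      have h1 : (i : ℤ) * (g + 2) ≤ j * (g + 2) :=
        mul_le_mul_of_nonneg_right (by exact_mod_cast (by omega : i ≤ j)) (by omega)
      omega
  have := (all j le_rfl).stop hcon
  omega

end Pool.Agent.HPD79
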