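import Pool.Agent.AltPath.Geom
import Pool.Agent.Helper79.HPD.Iter

/-! Half-planes of a finite point set: adding one point, complements, and the function of the
maximal discrepancies. -/

namespace Pool.Agent.HPD79

open Pool.Agent.AltPath

/-- X is cut off from P by a line. -/
def IsHP79 (P X : Finset (ℝ × ℝ)) : Prop :=
  X ⊆ P ∧ ∃ a : ℝ × ℝ, ∀ x ∈ X, ∀ y ∈ P, y ∉ X → dt a x < dt a y

/-- Reds minus the other points. -/
noncomputable def Dc79 (R X : Finset (ℝ × ℝ)) : ℤ :=
  ((X ∩ R).card : ℤ) - ((X \ R).card : ℤ)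

/-- A direction which separates all points of P. -/
theorem exists_dir79 (P : Finset (ℝ × ℝ)) :
    ∃ b : ℝ × ℝ, ∀ p ∈ P, ∀ q ∈ P, p ≠ q → dt b (p - q) ≠ 0 := by
  classical
  obtain ⟨t, ht⟩ := Infinite.exists_notMem_finset
    ((P ×ˢ P).image (fun z => -(z.1 - z.2).1 / (z.1 - z.2).2))
  refine ⟨(1, t), ?_⟩
  intro p hp q hq hpq h0
  simp only [dt, one_mul] at h0
  by_cases hy : (p - q).2 = 0
  · rw [hy, mul_zero, add_zero] at h0
    exact hpq (sub_eq_zero.mp (Prod.ext h0 hy))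
  · apply ht
    refine Finset.mem_image.mpr ⟨(p, q), Finset.mem_product.mpr ⟨hp, hq⟩, ?_⟩
    show -(p - q).1 / (p - q).2 = t
    rw [div_eq_iff hy]
    linarith

/-- A direction may be perturbed so that all points of P get different values. -/
theorem perturb79 (P X : Finset (ℝ × ℝ)) (h : IsHP79 P X) :
    ∃ a : ℝ × ℝ, (∀ x ∈ X, ∀ y ∈ P, y ∉ X → dt a x < dt a y) ∧
      ∀ p ∈ P, ∀ q ∈ P, p ≠ q → dt a p ≠ dt a q := by
  classical
  obtain ⟨hXP, a, ha⟩ := h
  obtain ⟨b, hb⟩ := exists_dir79 P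
  obtain ⟨e, he, hsm⟩ := small (((X ×ˢ P).filter (fun z => z.2 ∉ X)).image
    (fun z => z.2 - z.1)) a b
    (by
      intro w hw
      obtain ⟨z, hz, rfl⟩ := Finset.mem_image.mp hw
      obtain ⟨hz1, hz2⟩ := Finset.mem_filter.mp hz
      obtain ⟨hz3, hz4⟩ := Finset.mem_product.mp hz1
      rw [dt_sub]
      linarith [ha _ hz3 _ hz4 hz2])
  obtain ⟨t, htI, htF⟩ := (Set.Ioo_infinite he).exists_notMem_finset
    ((P ×ˢ P).image (fun z => -(dt a (z.1 - z.2)) / dt b (z.1 - z.2)))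
  refine ⟨a + t • b, ?_, ?_⟩
  · intro x hx y hy hyX
    have h1 := hsm (y - x) (Finset.mem_image.mpr ⟨(x, y), Finset.mem_filter.mpr
      ⟨Finset.mem_product.mpr ⟨hx, hy⟩, hyX⟩, rfl⟩)
    have h2 : 0 < dt (a + t • b) (y - x) := by
      rw [dt_add_left]
      have h3 : -(t * |dt b (y - x)|) ≤ t * dt b (y - x) := by
        nlinarith [neg_abs_le (dt b (y - x)), htI.1]
      have h4 : t * |dt b (y - x)| ≤ e * |dt b (y - x)| :=
        mul_le_mul_of_nonneg_right htI.2.le (abs_nonneg _)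
      linarith
    rw [dt_sub] at h2
    linarith
  · intro p hp q hq hpq h0
    have h1 : dt (a + t • b) (p - q) = 0 := by rw [dt_sub]; linarith
    rw [dt_add_left] at h1
    apply htF
    refine Finset.mem_image.mpr ⟨(p, q), Finset.mem_product.mpr ⟨hp, hq⟩, ?_⟩
    show -(dt a (p - q)) / dt b (p - q) = t
    rw [div_eq_iff (hb p hp q hq hpq)]
    linarith

theorem IsHP79.compl {P X : Finset (ℝ × ℝ)} (h : IsHP79 P X) : IsHP79 P (P \ X) := by
  obtain ⟨hXP, a, ha⟩ := h
  refine ⟨Finset.sdiff_subset, -a, ?_⟩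
  intro x hx y hy hyX
  have hyX' : y ∈ X := by
    by_contra hcon
    exact hyX (Finset.mem_sdiff.mpr ⟨hy, hcon⟩)
  have h1 := ha y hyX' x (Finset.mem_sdiff.mp hx).1 (Finset.mem_sdiff.mp hx).2
  have e : ∀ z : ℝ × ℝ, dt (-a) z = -dt a z := by
    intro z; simp only [dt, Prod.fst_neg, Prod.snd_neg]; ring
  rw [e, e]
  linarith

/-- One more point. -/
theorem IsHP79.extend {P X : Finset (ℝ × ℝ)} (h : IsHP79 P X) (hne : X ≠ P) :
    ∃ p ∈ P, p ∉ X ∧ IsHP79 P (insert p X) := by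
  classical
  obtain ⟨a, ha, hinj⟩ := perturb79 P X h
  have hXP := h.1
  have hN : (P \ X).Nonempty := by
    rw [Finset.sdiff_nonempty]
    intro hcon
    exact hne (Finset.Subset.antisymm hXP hcon)
  obtain ⟨p, hp, hmin⟩ := Finset.exists_min_image (P \ X) (fun q => dt a q) hN
  obtain ⟨hpP, hpX⟩ := Finset.mem_sdiff.mp hp
  refine ⟨p, hpP, hpX, Finset.insert_subset hpP hXP, a, ?_⟩
  intro x hx y hy hyX
  have hyp : y ≠ p := fun hh => hyX (hh ▸ Finset.mem_insert_self _ _)
  have hyX' : y ∉ X := fun hh => hyX (Finset.mem_insert_of_mem hh)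
  rcases Finset.mem_insert.mp hx with rfl | hx
  · exact lt_of_le_of_ne (hmin y (Finset.mem_sdiff.mpr ⟨hy, hyX'⟩)) (hinj x hpP y hy hyp.symm)
  · exact ha x hx y hy hyX'

theorem isHP79_empty (P : Finset (ℝ × ℝ)) : IsHP79 P ∅ :=
  ⟨Finset.empty_subset _, 0, fun x hx => absurd hx (Finset.notMem_empty x)⟩

theorem exists_HP79 (P : Finset (ℝ × ℝ)) : ∀ s : ℕ, s ≤ P.card →
    ∃ X : Finset (ℝ × ℝ), IsHP79 P X ∧ X.card = s := by
  classical
  intro s
  induction s with
  | zero => intro _; exact ⟨∅, isHP79_empty P, rfl⟩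
  | succ s ih =>
    intro hs
    obtain ⟨X, hX, hXs⟩ := ih (by omega)
    obtain ⟨p, hp, hpX, h⟩ := hX.extend (by rintro rfl; omega)
    exact ⟨_, h, by rw [Finset.card_insert_of_notMem hpX, hXs]⟩

theorem Dc79_insert (R : Finset (ℝ × ℝ)) {X : Finset (ℝ × ℝ)} {p : ℝ × ℝ} (hp : p ∉ X) :
    |Dc79 R (insert p X) - Dc79 R X| ≤ 1 := by
  classical
  unfold Dc79
  by_cases hR : p ∈ R
  · rw [Finset.insert_inter_of_mem hR, Finset.insert_sdiff_of_mem _ hR,
      Finset.card_insert_of_notMem (fun h => hp (Finset.mem_inter.mp h).1)]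
    push_cast
    rw [abs_le]
    constructor <;> linarith
  · rw [Finset.insert_inter_of_notMem hR, Finset.insert_sdiff_of_notMem _ hR,
      Finset.card_insert_of_notMem (fun h => hp (Finset.mem_sdiff.mp h).1)]
    push_cast
    rw [abs_le]
    constructor <;> linarith

/-- Discrepancy of the complement in a balanced set. -/
theorem Dc79_compl {P R X : Finset (ℝ × ℝ)} (hX : X ⊆ P) (h0 : Dc79 R P = 0) :
    Dc79 R (P \ X) = -Dc79 R X := by
  classical
  unfold Dc79 at h0 ⊢
  have h1 : ((P \ X) ∩ R).card + (X ∩ R).card = (P ∩ R).card := by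
    rw [← Finset.card_union_of_disjoint]
    · congr 1
      ext z
      simp only [Finset.mem_union, Finset.mem_inter, Finset.mem_sdiff]
      constructor
      · rintro (h | h)
        · exact ⟨h.1.1, h.2⟩
        · exact ⟨hX h.1, h.2⟩
      · intro h
        by_cases hz : z ∈ X
        · exact Or.inr ⟨hz, h.2⟩
        · exact Or.inl ⟨⟨h.1, hz⟩, h.2⟩
    · rw [Finset.disjoint_left]
      intro z hz hz'
      exact (Finset.mem_sdiff.mp (Finset.mem_inter.mp hz).1).2 (Finset.mem_inter.mp hz').1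
  have h2 : ((P \ X) \ R).card + (X \ R).card = (P \ R).card := by
    rw [← Finset.card_union_of_disjoint]
    · congr 1
      ext z
      simp only [Finset.mem_union, Finset.mem_sdiff]
      constructor
      · rintro (h | h)
        · exact ⟨h.1.1, h.2⟩
        · exact ⟨hX h.1, h.2⟩
      · intro h
        by_cases hz : z ∈ X
        · exact Or.inr ⟨hz, h.2⟩
        · exact Or.inl ⟨⟨h.1, hz⟩, h.2⟩
    · rw [Finset.disjoint_left]
      intro z hz hz'
      exact (Finset.mem_sdiff.mp (Finset.mem_sdiff.mp hz).1).2 (Finset.mem_sdiff.mp hz').1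
  omega

/-- Discrepancy for the other colour. -/
theorem Dc79_swap {P R X : Finset (ℝ × ℝ)} (hX : X ⊆ P) :
    Dc79 (P \ R) X = -Dc79 R X := by
  classical
  unfold Dc79
  have h1 : X ∩ (P \ R) = X \ R := by
    ext z
    simp only [Finset.mem_inter, Finset.mem_sdiff]
    exact ⟨fun h => ⟨h.1, h.2.2⟩, fun h => ⟨h.1, hX h.1, h.2⟩⟩
  have h2 : X \ (P \ R) = X ∩ R := by
    ext z
    simp only [Finset.mem_inter, Finset.mem_sdiff]
    constructor
    · intro h
      refine ⟨h.1, ?_⟩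
      by_contra hcon
      exact h.2 ⟨hX h.1, hcon⟩
    · intro h
      exact ⟨h.1, fun hh => hh.2 h.2⟩
  rw [h1, h2]
  ring

/-- The maximal discrepancy at every size, 0 outside. -/
theorem exists_max79 (P R : Finset (ℝ × ℝ)) {n : ℕ} (hP : P.card = 2 * n) :
    ∃ f : ℤ → ℤ, (∀ s : ℤ, 0 ≤ s → s ≤ 2 * n →
      (∃ X : Finset (ℝ × ℝ), IsHP79 P X ∧ (X.card : ℤ) = s ∧ Dc79 R X = f s) ∧
      ∀ X : Finset (ℝ × ℝ), IsHP79 P X → (X.card : ℤ) = s → Dc79 R X ≤ f s) ∧
      ∀ s : ℤ, (s < 0 ∨ 2 * n < s) → f s = 0 := by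
  classical
  have key : ∀ s : ℤ, ∃ v : ℤ, (0 ≤ s → s ≤ 2 * n →
      (∃ X : Finset (ℝ × ℝ), IsHP79 P X ∧ (X.card : ℤ) = s ∧ Dc79 R X = v) ∧
      ∀ X : Finset (ℝ × ℝ), IsHP79 P X → (X.card : ℤ) = s → Dc79 R X ≤ v) ∧
      ((s < 0 ∨ 2 * n < s) → v = 0) := by
    intro s
    by_cases hs : s < 0 ∨ 2 * n < s
    · exact ⟨0, fun h0 h1 => by omega, fun _ => rfl⟩
    · push Not at hs
      obtain ⟨k, hk⟩ := Int.eq_ofNat_of_zero_le hs.1
      have hk2 : k ≤ P.card := by omega
      obtain ⟨X0, hX0, hX0s⟩ := exists_HP79 P k hk2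
      obtain ⟨X, hX, hmax⟩ := Finset.exists_max_image
        (P.powerset.filter (fun X => IsHP79 P X ∧ X.card = k)) (fun X => Dc79 R X)
        ⟨X0, Finset.mem_filter.mpr ⟨Finset.mem_powerset.mpr hX0.1, hX0, hX0s⟩⟩
      have hX' := (Finset.mem_filter.mp hX).2
      refine ⟨Dc79 R X, fun _ _ => ⟨⟨X, hX'.1, by rw [hX'.2, hk], rfl⟩, ?_⟩, ?_⟩
      · intro Y hY hYs
        refine hmax Y (Finset.mem_filter.mpr ⟨Finset.mem_powerset.mpr hY.1, hY, ?_⟩)
        have h5 : (Y.card : ℤ) = ((k : ℕ) : ℤ) := by rw [hYs, hk]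
        exact_mod_cast h5
      · intro hcon
        omega
  choose f hf using key
  exact ⟨f, fun s h0 h1 => (hf s).1 h0 h1, fun s hs => (hf s).2 hs⟩

/-- The doubling property of the half-planes, for one colour. -/
def HS79 (P R : Finset (ℝ × ℝ)) (n g : ℤ) : Prop :=
  ∀ X : Finset (ℝ × ℝ), IsHP79 P X → (X.card : ℤ) ≤ n → g < Dc79 R X →
    ∃ (Y : Finset (ℝ × ℝ)) (b : ℤ), IsHP79 P Y ∧ 0 ≤ b ∧ Dc79 R X - g + b ≤ Dc79 R Y ∧
      (Y.card : ℤ) = 2 * X.card - 2 * b + Dc79 R Y

/-- From the doubling of half-planes (for both colours) to a bound on all discrepancies. -/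
theorem disc_bound79 {P R : Finset (ℝ × ℝ)} {n : ℕ} {g : ℤ} (hP : P.card = 2 * n)
    (hR : Dc79 R P = 0) (hg : 0 ≤ g)
    (hmid : ∀ X : Finset (ℝ × ℝ), IsHP79 P X → X.card = n → Dc79 R X ≤ g)
    (hS : HS79 P R n g) (hS' : HS79 P (P \ R) n g)
    {H : Finset (ℝ × ℝ)} (hH : IsHP79 P H) (j : ℕ) (hj : 2 * (n : ℤ) ≤ 2 ^ j * |Dc79 R H|) :
    |Dc79 R H| ≤ 2 * (j * (g + 2) + g) := by
  classical
  obtain ⟨f, hf, hf0⟩ := exists_max79 P R hP
  have hD0 : Dc79 R ∅ = 0 := by simp [Dc79]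
  have f0 : f 0 = 0 := by
    obtain ⟨X, hX, hXs, hXf⟩ := (hf 0 le_rfl (by omega)).1
    have : X = ∅ := by
      rw [← Finset.card_eq_zero]; omega
    rw [← hXf, this, hD0]
  have f2 : f (2 * n) = 0 := by
    obtain ⟨X, hX, hXs, hXf⟩ := (hf (2 * n) (by omega) le_rfl).1
    have : X = P := Finset.eq_of_subset_of_card_le hX.1 (by omega)
    rw [← hXf, this, hR]
  have hlip : ∀ s : ℤ, |f (s + 1) - f s| ≤ 1 := by
    intro s
    by_cases h0 : s < 0
    · have e1 : f s = 0 := hf0 s (Or.inl h0)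
      have e2 : f (s + 1) = 0 := by
        rcases lt_or_eq_of_le (by omega : s + 1 ≤ 0) with h | h
        · exact hf0 _ (Or.inl h)
        · rw [h, f0]
      rw [e1, e2]; norm_num
    · by_cases h2 : 2 * (n : ℤ) < s + 1
      · have e1 : f (s + 1) = 0 := hf0 _ (Or.inr h2)
        have e2 : f s = 0 := by
          rcases lt_or_eq_of_le (by omega : 2 * (n : ℤ) ≤ s) with h | h
          · exact hf0 _ (Or.inr h)
          · rw [← h, f2]
        rw [e1, e2]; norm_num
      · push Not at h0 h2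
        have A := hf s h0 (by omega)
        have B := hf (s + 1) (by omega) h2
        rw [abs_le]
        constructor
        · obtain ⟨X, hX, hXs, hXf⟩ := A.1
          obtain ⟨p, hp, hpX, h⟩ := hX.extend (by rintro rfl; omega)
          have h1 := B.2 _ h (by rw [Finset.card_insert_of_notMem hpX]; push_cast; omega)
          have h3 := abs_le.mp (Dc79_insert R hpX)
          linarith [h3.1]
        · obtain ⟨Y, hY, hYs, hYf⟩ := B.1
          obtain ⟨p, hp, hpY, h⟩ := hY.compl.extend (by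
            intro hcon
            have h5 : Y.card = 0 := by
              have h6 := Finset.card_sdiff_add_card_eq_card hY.1
              rw [hcon] at h6
              omega
            omega)
          have hpY' : p ∈ Y := by
            by_contra hcon
            exact hpY (Finset.mem_sdiff.mpr ⟨hp, hcon⟩)
          have hc := h.compl
          have hcc : P \ insert p (P \ Y) = Y.erase p := by
            ext z
            simp only [Finset.mem_sdiff, Finset.mem_insert, Finset.mem_erase, not_or, not_and,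
              not_not]
            exact ⟨fun hz => ⟨hz.2.1, hz.2.2 hz.1⟩, fun hz => ⟨hY.1 hz.2, hz.1, fun _ => hz.2⟩⟩
          rw [hcc] at hc
          have h1 := A.2 _ hc (by
            rw [Finset.card_erase_of_mem hpY']
            have : 0 < Y.card := Finset.card_pos.mpr ⟨p, hpY'⟩
            omega)
          have h3 := abs_le.mp (Dc79_insert R (Finset.notMem_erase p Y))
          rw [Finset.insert_erase hpY'] at h3
          linarith [h3.2]
  -- the complementary function belongs to the other colour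
  have hcompl : ∀ s : ℤ, 0 ≤ s → s ≤ 2 * n →
      (∃ X : Finset (ℝ × ℝ), IsHP79 P X ∧ (X.card : ℤ) = s ∧
        Dc79 (P \ R) X = f (2 * n - s)) ∧
      ∀ X : Finset (ℝ × ℝ), IsHP79 P X → (X.card : ℤ) = s → Dc79 (P \ R) X ≤ f (2 * n - s) := by
    intro s h0 h2
    have A := hf (2 * n - s) (by omega) (by omega)
    refine ⟨?_, ?_⟩
    · obtain ⟨X, hX, hXs, hXf⟩ := A.1
      refine ⟨P \ X, hX.compl, ?_, ?_⟩
      · have := Finset.card_sdiff_add_card_eq_card hX.1
        omega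
      · rw [Dc79_swap Finset.sdiff_subset, Dc79_compl hX.1 hR, neg_neg, hXf]
    · intro X hX hXs
      have h1 := A.2 _ hX.compl (by
        have := Finset.card_sdiff_add_card_eq_card hX.1
        omega)
      rw [Dc79_compl hX.1 hR] at h1
      rw [Dc79_swap hX.1]
      exact h1
  have hcard : ∀ Y : Finset (ℝ × ℝ), Y ⊆ P → 0 ≤ (Y.card : ℤ) ∧ (Y.card : ℤ) ≤ 2 * n := by
    intro Y hY
    have := Finset.card_le_card hY
    omega
  obtain ⟨t, ht, htmax⟩ := Finset.exists_max_image (Finset.Icc (0 : ℤ) (2 * n)) f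
    ⟨0, Finset.mem_Icc.mpr ⟨le_rfl, by omega⟩⟩
  rw [Finset.mem_Icc] at ht
  have hdata : Data79 n g (f t) f := by
    refine ⟨hg, hlip, ?_, ?_, ?_, ?_, ?_⟩
    · intro s hs
      rcases lt_or_eq_of_le hs with h | h
      · exact hf0 _ (Or.inl h)
      · rw [h, f0]
    · intro s hs
      rcases lt_or_eq_of_le hs with h | h
      · exact hf0 _ (Or.inr h)
      · rw [← h, f2]
    · obtain ⟨X, hX, hXs, hXf⟩ := (hf n (by omega) (by omega)).1
      rw [← hXf]
      exact hmid X hX (by exact_mod_cast hXs)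
    · intro s h0 h1 h2
      obtain ⟨X, hX, hXs, hXf⟩ := (hf s h0 (by omega)).1
      obtain ⟨Y, b, hY, hb, hbD, hYc⟩ := hS X hX (by omega) (by omega)
      refine ⟨b, Dc79 R Y, hb, by omega, ?_⟩
      have h3 := (hf Y.card (hcard Y hY.1).1 (hcard Y hY.1).2).2 Y hY rfl
      rw [hYc, hXs] at h3
      exact h3
    · intro s h0 h1 h2
      have h2' : g < f (2 * n - s) := h2
      obtain ⟨X, hX, hXs, hXf⟩ := (hcompl s h0 (by omega)).1
      obtain ⟨Y, b, hY, hb, hbD, hYc⟩ := hS' X hX (by omega) (by omega)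
      refine ⟨b, Dc79 (P \ R) Y, hb, by
        show f (2 * n - s) - g + b ≤ _
        omega, ?_⟩
      have h3 := (hcompl Y.card (hcard Y hY.1).1 (hcard Y hY.1).2).2 Y hY rfl
      rw [hYc, hXs] at h3
      exact h3
  have hle : |Dc79 R H| ≤ f t := by
    rw [abs_le]
    constructor
    · have h1 := (hf _ (hcard _ (Finset.sdiff_subset (s := P) (t := H))).1
        (hcard _ (Finset.sdiff_subset (s := P) (t := H))).2).2 _ hH.compl rfl
      rw [Dc79_compl hH.1 hR] at h1
      have h2 := htmax _ (Finset.mem_Icc.mpr (hcard _ (Finset.sdiff_subset (s := P) (t := H))))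
      linarith
    · have h1 := (hf _ (hcard _ hH.1).1 (hcard _ hH.1).2).2 _ hH rfl
      have h2 := htmax _ (Finset.mem_Icc.mpr (hcard _ hH.1))
      linarith
  have h5 := iter79 hdata ⟨t, ht.2, rfl⟩ j
    (le_trans hj (mul_le_mul_of_nonneg_left hle (by positivity)))
  linarith

end Pool.Agent.HPD79
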